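import Mathlib

set_option autoImplicit false

/-!
On every nonseparable real Hilbert space `H` there is a bi-Lipschitz bijection of `H` onto `H` that
is Gateaux differentiable at no point: in coordinates with respect to a Hilbert basis it applies to
every coordinate the map `s ↦ s` (`s < 0`), `s ↦ 2 s` (`s ≥ 0`), and every point of `H` has a zero
coordinate, since the index set of the Hilbert basis is uncountable.
-/

open Filter Topology
open scoped ENNReal

namespace Pool.Agent.Results.MP_714461_an.NowhereGateaux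

/-- `φ : X → Y` is Gateaux differentiable at `x₀`: there is a bounded linear operator `T : X → Y`
such that `(φ (x₀ + t h) - φ x₀) / t → T h` in the norm of `Y`, as `t → 0`, `t ≠ 0`, for every
`h ∈ X`. -/
def GateauxDifferentiableAt {X Y : Type*} [NormedAddCommGroup X] [NormedSpace ℝ X]
    [NormedAddCommGroup Y] [NormedSpace ℝ Y] (φ : X → Y) (x₀ : X) : Prop :=
  ∃ T : X →L[ℝ] Y, ∀ h : X,
    Tendsto (fun t : ℝ => t⁻¹ • (φ (x₀ + t • h) - φ x₀)) (𝓝[≠] 0) (𝓝 (T h))

/-- `X` is reflexive: the canonical map of `X` into its bidual is onto. -/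
def IsReflexiveSpace (X : Type*) [NormedAddCommGroup X] [NormedSpace ℝ X] : Prop :=
  Function.Surjective (NormedSpace.inclusionInDoubleDual ℝ X)

/-- the kink -/
noncomputable def kink (s : ℝ) : ℝ := s + max s 0

/-- the inverse of the kink -/
noncomputable def unkink (s : ℝ) : ℝ := s - max s 0 / 2

lemma kink_unkink (s : ℝ) : kink (unkink s) = s := by
  unfold kink unkink
  rcases le_total s 0 with h | h
  · rw [max_eq_right h]; simp [h]
  · rw [max_eq_left h]
    rw [max_eq_left (by linarith)]; ring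

lemma unkink_kink (s : ℝ) : unkink (kink s) = s := by
  unfold kink unkink
  rcases le_total s 0 with h | h
  · rw [max_eq_right h]; simp [h]
  · rw [max_eq_left h]
    rw [max_eq_left (by linarith)]; ring

lemma kink_lip (s t : ℝ) : ‖kink s - kink t‖ ≤ 2 * ‖s - t‖ := by
  have h : |max s 0 - max t 0| ≤ |s - t| := abs_max_sub_max_le_abs s t 0
  have : kink s - kink t = (s - t) + (max s 0 - max t 0) := by unfold kink; ring
  rw [this]
  refine (norm_add_le _ _).trans ?_
  simp only [Real.norm_eq_abs]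
  linarith

lemma unkink_lip (s t : ℝ) : ‖unkink s - unkink t‖ ≤ 2 * ‖s - t‖ := by
  have h : |max s 0 - max t 0| ≤ |s - t| := abs_max_sub_max_le_abs s t 0
  have : unkink s - unkink t = (s - t) - (max s 0 - max t 0) / 2 := by unfold unkink; ring
  rw [this]
  refine (norm_sub_le _ _).trans ?_
  rw [norm_div]
  simp only [Real.norm_eq_abs]
  have h2 : |(2 : ℝ)| = 2 := by norm_num
  rw [h2]
  have := abs_nonneg (s - t)
  linarith

lemma kink_zero : kink 0 = 0 := by simp [kink]

lemma unkink_zero : unkink 0 = 0 := by simp [unkink]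

section coord

variable {ι : Type*}

/-- A map applied to every coordinate of a vector of `ℓ²`. -/
noncomputable def cmap (g : ℝ → ℝ) (h0 : g 0 = 0) (hg : ∀ s t, ‖g s - g t‖ ≤ 2 * ‖s - t‖)
    (x : lp (fun _ : ι => ℝ) 2) : lp (fun _ : ι => ℝ) 2 :=
  ⟨fun i => g (x i), by
    have hp : 0 < (2 : ℝ≥0∞).toReal := by norm_num
    have hx := (lp.memℓp x).summable hp
    have hx2 := hx.mul_left ((2 : ℝ) ^ (2 : ℝ≥0∞).toReal)
    refine (memℓp_gen_iff hp).2 ?_
    refine Summable.of_nonneg_of_le (fun i => by positivity) (fun i => ?_) hx2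
    rw [← Real.mul_rpow (by norm_num) (norm_nonneg _)]
    refine Real.rpow_le_rpow (norm_nonneg _) ?_ (by norm_num)
    have := hg (x i) 0
    rw [h0, sub_zero, sub_zero] at this
    exact this⟩

lemma cmap_apply (g : ℝ → ℝ) (h0 : g 0 = 0) (hg : ∀ s t, ‖g s - g t‖ ≤ 2 * ‖s - t‖)
    (x : lp (fun _ : ι => ℝ) 2) (i : ι) : cmap g h0 hg x i = g (x i) := rfl

lemma cmap_lip (g : ℝ → ℝ) (h0 : g 0 = 0) (hg : ∀ s t, ‖g s - g t‖ ≤ 2 * ‖s - t‖) :
    LipschitzWith 2 (cmap (ι := ι) g h0 hg) := by
  refine LipschitzWith.of_dist_le_mul fun x y => ?_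
  rw [dist_eq_norm, dist_eq_norm]
  have hp : 0 < (2 : ℝ≥0∞).toReal := by norm_num
  have key : ‖cmap g h0 hg x - cmap g h0 hg y‖ ≤ ‖(2 : ℝ) • (x - y)‖ := by
    rw [lp.norm_eq_tsum_rpow hp, lp.norm_eq_tsum_rpow hp]
    refine Real.rpow_le_rpow (tsum_nonneg fun i => by positivity) ?_ (by norm_num)
    have s1 := (lp.memℓp (cmap g h0 hg x - cmap g h0 hg y)).summable hp
    have s2 := (lp.memℓp ((2 : ℝ) • (x - y))).summable hp
    refine Summable.tsum_le_tsum (fun i => ?_) s1 s2
    refine Real.rpow_le_rpow (norm_nonneg _) ?_ (by norm_num)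
    rw [lp.coeFn_sub, lp.coeFn_smul, lp.coeFn_sub]
    simp only [Pi.sub_apply, Pi.smul_apply, cmap_apply]
    rw [norm_smul]
    simpa using hg (x i) (y i)
  rw [norm_smul] at key
  simpa using key

/-- The coordinatewise kink is a bijection of `ℓ²(ι)`. -/
noncomputable def kinkEquiv (ι : Type*) : lp (fun _ : ι => ℝ) 2 ≃ lp (fun _ : ι => ℝ) 2 where
  toFun := cmap kink kink_zero kink_lip
  invFun := cmap unkink unkink_zero unkink_lip
  left_inv x := by ext i; simp [cmap_apply, unkink_kink]
  right_inv x := by ext i; simp [cmap_apply, kink_unkink]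

end coord

/-- A nonzero-support statement: every vector of `ℓ²(ι)` with `ι` uncountable has a zero
coordinate. -/
lemma exists_zero_coord {ι : Type*} [Uncountable ι] (x : lp (fun _ : ι => ℝ) 2) :
    ∃ i, x i = 0 := by
  by_contra hcon
  have hcon : ∀ i, x i ≠ 0 := fun i hi => hcon ⟨i, hi⟩
  have hp : 0 < (2 : ℝ≥0∞).toReal := by norm_num
  have hs := (lp.memℓp x).summable hp
  have hc := hs.countable_support
  have : Function.support (fun i => ‖x i‖ ^ (2 : ℝ≥0∞).toReal) = Set.univ := by
    ext i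
    simp only [Function.mem_support, ne_eq, Set.mem_univ, iff_true]
    have : 0 < ‖x i‖ := norm_pos_iff.mpr (hcon i)
    positivity
  rw [this] at hc
  exact Set.not_countable_univ hc

open Classical in
lemma not_diff {ι : Type*} [Uncountable ι] (x : lp (fun _ : ι => ℝ) 2) :
    ∃ h : lp (fun _ : ι => ℝ) 2, ¬ ∃ y : lp (fun _ : ι => ℝ) 2,
      Tendsto (fun t : ℝ => t⁻¹ • (kinkEquiv ι (x + t • h) - kinkEquiv ι x)) (𝓝[≠] 0) (𝓝 y) := by
  obtain ⟨i, hi⟩ := exists_zero_coord x
  refine ⟨lp.single 2 i (1 : ℝ), ?_⟩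
  rintro ⟨y, hy⟩
  have hcoord : Tendsto (fun t : ℝ => t⁻¹ * (t + max t 0)) (𝓝[≠] 0) (𝓝 (y i)) := by
    have hc : Continuous fun z : lp (fun _ : ι => ℝ) 2 => z i :=
      (continuous_apply i).comp lp.uniformContinuous_coe.continuous
    have := (hc.tendsto y).comp hy
    refine this.congr fun t => ?_
    simp only [Function.comp]
    rw [lp.coeFn_smul, lp.coeFn_sub]
    simp only [Pi.smul_apply, Pi.sub_apply, smul_eq_mul]
    have hk : ∀ z : lp (fun _ : ι => ℝ) 2, (kinkEquiv ι z) i = kink (z i) := fun z => rfl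
    rw [hk, hk, lp.coeFn_add, lp.coeFn_smul]
    simp only [Pi.add_apply, Pi.smul_apply, hi, smul_eq_mul, kink_zero]
    rw [lp.single_apply_self]
    simp [kink]
  have h1 : Tendsto (fun t : ℝ => t⁻¹ * (t + max t 0)) (𝓝[>] 0) (𝓝 (y i)) :=
    hcoord.mono_left (nhdsWithin_mono _ fun t (ht : 0 < t) => ht.ne')
  have h2 : Tendsto (fun t : ℝ => t⁻¹ * (t + max t 0)) (𝓝[<] 0) (𝓝 (y i)) :=
    hcoord.mono_left (nhdsWithin_mono _ fun t (ht : t < 0) => ht.ne)
  have e1 : Tendsto (fun t : ℝ => t⁻¹ * (t + max t 0)) (𝓝[>] 0) (𝓝 2) := by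
    refine tendsto_const_nhds.congr' ?_
    filter_upwards [self_mem_nhdsWithin] with t ht
    have ht' : (0 : ℝ) < t := ht
    rw [max_eq_left ht'.le]
    field_simp
    norm_num
  have e2 : Tendsto (fun t : ℝ => t⁻¹ * (t + max t 0)) (𝓝[<] 0) (𝓝 1) := by
    refine tendsto_const_nhds.congr' ?_
    filter_upwards [self_mem_nhdsWithin] with t ht
    have ht' : t < (0 : ℝ) := ht
    rw [max_eq_right ht'.le, add_zero, inv_mul_cancel₀ ht'.ne]
  have := tendsto_nhds_unique h1 e1
  have := tendsto_nhds_unique h2 e2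
  linarith

/-- Hilbert spaces are reflexive. -/
lemma hilbert_reflexive (H : Type*) [NormedAddCommGroup H] [InnerProductSpace ℝ H]
    [CompleteSpace H] : IsReflexiveSpace H := by
  intro F
  let G : H →ₗ[ℝ] ℝ :=
    { toFun := fun x => F (InnerProductSpace.toDual ℝ H x)
      map_add' := fun x y => by simp
      map_smul' := fun c x => by
        have : InnerProductSpace.toDual ℝ H (c • x) = c • InnerProductSpace.toDual ℝ H x := by
          rw [map_smulₛₗ]; simp
        rw [this, map_smul]; rfl }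
  let G' : StrongDual ℝ H := G.mkContinuous ‖F‖ fun x => by
    change ‖F (InnerProductSpace.toDual ℝ H x)‖ ≤ _
    refine (F.le_opNorm _).trans ?_
    rw [LinearIsometryEquiv.norm_map]
  refine ⟨(InnerProductSpace.toDual ℝ H).symm G', ?_⟩
  ext f
  obtain ⟨z, rfl⟩ := (InnerProductSpace.toDual ℝ H).surjective f
  rw [NormedSpace.dual_def, InnerProductSpace.toDual_apply_apply, real_inner_comm,
    InnerProductSpace.toDual_symm_apply]
  rfl

/-- **Nowhere Gateaux differentiable Lipschitz homeomorphisms of nonseparable Hilbert spaces.**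
Every real nonseparable Hilbert space `H` (which is uniformly convex, hence superreflexive, and
reflexive) has a bijection `φ` onto itself such that `φ` and its inverse are Lipschitz and `φ` is
Gateaux differentiable at no point of `H`. -/
theorem result (H : Type*) [NormedAddCommGroup H] [InnerProductSpace ℝ H] [CompleteSpace H]
    (hH : ¬ TopologicalSpace.SeparableSpace H) :
    UniformConvexSpace H ∧ IsReflexiveSpace H ∧
    ∃ φ : H ≃ H, LipschitzWith 2 φ ∧ LipschitzWith 2 φ.symm ∧
      ∀ x₀ : H, ¬ GateauxDifferentiableAt φ x₀ := by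
  obtain ⟨w, b, -⟩ := exists_hilbertBasis ℝ H
  have hw : Uncountable w := by
    by_contra hcon
    rw [not_uncountable_iff] at hcon
    apply hH
    have hd : Dense (↑(Submodule.span ℝ (Set.range b)) : Set H) := by
      have := b.dense_span
      rw [← Submodule.dense_iff_topologicalClosure_eq_top] at this
      exact this
    have hsep : TopologicalSpace.IsSeparable (Submodule.span ℝ (Set.range b) : Set H) :=
      (Set.countable_range b).isSeparable.span
    have := hsep.closure
    rw [hd.closure_eq] at this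
    exact TopologicalSpace.isSeparable_univ_iff.mp this
  let e : H ≃ₗᵢ[ℝ] lp (fun _ : w => ℝ) 2 := b.repr
  refine ⟨inferInstance, hilbert_reflexive H,
    (e.toEquiv.trans (kinkEquiv w)).trans e.symm.toEquiv, ?_, ?_, ?_⟩
  · have h1 := (e.symm.lipschitz.comp (cmap_lip (ι := w) kink kink_zero kink_lip)).comp e.lipschitz
    have e1 : (1 : NNReal) * 2 * 1 = 2 := by norm_num
    rw [e1] at h1
    exact h1
  · have h1 := (e.symm.lipschitz.comp (cmap_lip (ι := w) unkink unkink_zero unkink_lip)).comp
      e.lipschitz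
    have e1 : (1 : NNReal) * 2 * 1 = 2 := by norm_num
    rw [e1] at h1
    exact h1
  · rintro x₀ ⟨T, hT⟩
    obtain ⟨h, hh⟩ := not_diff (e x₀)
    apply hh
    refine ⟨e (T (e.symm h)), ?_⟩
    have := (e.continuous.tendsto (T (e.symm h))).comp (hT (e.symm h))
    refine this.congr fun t => ?_
    have ha : ∀ z : H, e (((e.toEquiv.trans (kinkEquiv w)).trans e.symm.toEquiv) z)
        = kinkEquiv w (e z) := fun z => e.apply_symm_apply _
    simp only [Function.comp, map_smul, map_sub, ha, map_add,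
      LinearIsometryEquiv.apply_symm_apply]

end Pool.Agent.Results.MP_714461_an.NowhereGateaux
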